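import Pool.Agent.Results.MP_0da313_nt.LinearFormsAndRecurrences

/-!
# Prime values along `x + y = n`: ALL good rational approximations of almost every real number

We consider the families `f₁ = (u + 2) x + u y + a`, `f₂ = v x + (v + 2) y + b` (`u`, `v ≥ 0` even, `a`, `b` odd), which are
admissible in the sense of the problem (`u = v = 0`, `a = -1`, `b = 1` is the Goldbach family).

Let `d ≥ 1`. For almost every `α` in `ℝ^d` the following holds for ALL integer vectors `(p_1, …, p_d, q)`, `q ≥ 1`, with
`|α_i - p_i / q| ≤ (log q)^W / q^(1 + 1/d)` for all `i`, with finitely many exceptions: ALL the integers `n > 0`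
at a distance of at most `(log q)^W` from one of the integers `v_1 p_1 + … + v_d p_d + v' q`, `(v_1, …, v_d, v') ≠ 0`,
`|v_i|, |v'| ≤ (log q)^W`, are as required in the problem, `n = x + y` with positive `x`, `y` and prime `|f₁(x, y)|`,
`|f₂(x, y)|`, and the number of these `x` in all windows of length at least `n / (log n)^A` is the predicted one up to the
factor `1 ± ε`. For `d = 1` this applies to the numerators and the denominators of all the convergents (and of all the
intermediate fractions) of the continued fraction of almost every real number, to the integers near their sums, differences,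
double values, and so on. The vectors are sparse: for almost every `α` there are only `(log Q)^(O(1))` of them with `q ≤ Q`.

Definitions used: from `Run7/h469/Tm`: `GoodApproximation d W α p q` (`q ≥ 1` and `|α_i - p_i / q| ≤ (log q)^W / q^(1 + 1/d)`
for all `i`), `Near W p q n` (`n = v_1 p_1 + … + v_d p_d + v' q + w > 0` with `(v, v') ≠ (0, 0)` and
`|v_i|, |v'|, |w| ≤ (log q)^W`); from the starting file `LinearPairsEveryModulus`: `family u v a b` (the polynomials `f₁`, `f₂`),
`Admissible` (of a family, as in the problem), `Good ε A u v a b n` (`n` is as required, with the asymptotic formula in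
windows).

Proof. For fixed small `v`, `v'`, `w` the number of the integer vectors `(p, q)` of size `2^j` for which `v p + v' q + w` is
one of the few exceptions of the problem (at most `x / (log x)^A` up to `x`) is at most `2^(j (d + 1)) / j^A`; so the union
of the corresponding boxes has the measure `O(j^(-2))`, and the lemma of Borel and Cantelli can be applied.
-/

set_option autoImplicit false

namespace Pool.Agent.Results.MP_0da313_nt.AllGoodApproximations

open Finset MeasureTheory
open Run7.h469.Tm (GoodApproximation Near approximations_affine thin_of_few)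
open Pool.Agent.Results.MP_0da313_nt.LinearPairsEveryModulus (family Good)

theorem near_finite (u v : ℕ) (hu : 2 ∣ u) (hv : 2 ∣ v) (a b : ℤ) (ha : Odd a) (hb : Odd b) (ε : ℝ) (hε : 0 < ε)
    (d : ℕ) (hd : 1 ≤ d) (A W : ℕ) : ∀ᵐ α : Fin d → ℝ,
      {z : (Fin d → ℤ) × ℕ | GoodApproximation d W α z.1 z.2 ∧ ∃ n : ℕ, Near W z.1 z.2 n ∧
        ¬ (a.natAbs + b.natAbs < n → Good ε A u v a b n)}.Finite :=
  approximations_affine (u + v + 2) (by omega) (a + b) _
    (fun n h => LinearFormsAndRecurrences.pos_of u v a b ε A n h)
    (thin_of_few (by norm_num) (LinearFormsAndRecurrences.few_good ε hε A u v hu hv a b ha hb)) d W hd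

/-- **All good approximations of almost every real tuple.** Let `u, v ≥ 0` be even and `a, b` odd, `ε > 0`. The family
`f₁ = (u + 2) x + u y + a`, `f₂ = v x + (v + 2) y + b` is admissible, and for almost all `α` in `ℝ^d`, for all `A` and `W`, there
are only finitely many pairs `(p, q)` such that `p / q` is a good approximation of `α` and some integer `n > |a| + |b|` near a
small linear combination of the `p_i` and `q` is not good. -/
theorem result (u v : ℕ) (hu : 2 ∣ u) (hv : 2 ∣ v) (a b : ℤ) (ha : Odd a) (hb : Odd b) :
    LinearPairsEveryModulus.Admissible (family u v a b) ∧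
    ∀ ε : ℝ, 0 < ε → ∀ d : ℕ, 1 ≤ d → ∀ᵐ α : Fin d → ℝ, ∀ A W : ℕ,
      {z : (Fin d → ℤ) × ℕ | GoodApproximation d W α z.1 z.2 ∧
        ∃ n : ℕ, Near W z.1 z.2 n ∧ a.natAbs + b.natAbs < n ∧ ¬ Good ε A u v a b n}.Finite := by
  refine ⟨LinearPairsEveryModulus.admissible u v hu hv a b ha hb, fun ε hε d hd => ?_⟩
  rw [ae_all_iff]
  intro A
  rw [ae_all_iff]
  intro W
  filter_upwards [near_finite u v hu hv a b ha hb ε hε d hd A W] with α hα
  refine hα.subset ?_
  rintro z ⟨h1, n, h2, h3, h4⟩
  exact ⟨h1, n, h2, fun h => h4 (h h3)⟩

end Pool.Agent.Results.MP_0da313_nt.AllGoodApproximations
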