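import Pool.Agent.Results.MP_0da313_nt.LinearFormsAndRecurrences

/-!
# Prime values along `x + y = n`: trajectories of the `3 x + 1` map

We consider the families `f₁ = (u + 2) x + u y + a`, `f₂ = v x + (v + 2) y + b` (`u`, `v ≥ 0` even, `a`, `b` odd), which are
admissible in the sense of the problem; for `x + y = n` the sum of the two values is `f₁ + f₂ = (u + v + 2) n + a + b`. For
`u = v = 0`, `a = -1`, `b = 1` (the Goldbach family of the problem) this is `2 n`.

Let `T(x) = x / 2` for even and `T(x) = (q x + c) / 2` for odd `x` (`q`, `c` odd and coprime; `q = 3`, `c = 1` is the map of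
Collatz). For almost all starting values `m`, ALL the `n` for which the sum `(u + v + 2) n + a + b` is one of the first
`κ log m` members `T^k(m)` of the trajectory of `m`, or a multiple `u' T^k(m)`, `u' ≤ (log m)^U`, are as required in the
problem: `n = x + y` with positive `x`, `y` and prime `|f₁(x, y)|`, `|f₂(x, y)|`; and the number of these `x` in all windows of
length at least `n / (log n)^A` is the predicted one up to the factor `1 ± ε`, if `κ < 1 / (log 2 + (log q) / 4)`. The
exceptional set has at most `N / (log N)^B` elements up to `N`, for every `B`. For the map of Collatz one can take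
`κ = 1.03`; for the Goldbach family all the `n = u' T^k(m)`, `u' ≤ (log m)^U`, are covered.

Definitions used: from `Run7/h469/Tm`: `T q c`, `exceptionalStarts q c P κ U N` (the `m ≤ N` for which `P (u' * T^k(m))` is
false for some `k ≤ κ log N`, `1 ≤ u' ≤ (log N)^U`), `AlmostAll`; from the starting file `LinearPairsEveryModulus`:
`family u v a b` (the polynomials `f₁`, `f₂`), `Admissible` (of a family, as in the problem), `AllPrime`, `Good ε A u v a b n`
(`n` is as required, with the asymptotic formula in windows).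

Proof. On a residue class `r` modulo `2^k` the map `T^k` is affine, `T^k(2^k v + r) = q^a v + T^k(r)`, where `a` is the number
of the odd members among the first `k` members, and `T^k(r)` is prime to `q` if `a > 0`. So the `k`-th members of the
trajectories that start in this class run through a residue class of the large modulus `q^a` which is prime to the modulus.
The theorem on Goldbach pairs in all residue classes of all moduli up to `x^(2/3 - ρ)` of the starting files (`R460/GH`) can
be applied if `a` is not much larger than `k / 2`; the other classes are few, by the identity `∑_r z^(a(r)) = (1 + z)^k`.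
-/

set_option autoImplicit false

namespace Pool.Agent.Results.MP_0da313_nt.CollatzTrajectories

open Finset
open Run7.h469.CT (Few)
open Run7.h469.Tm (T AlmostAll exceptionalStarts starts_two_thirds collatz_two_thirds)
open Pool.Agent.Results.MP_0da313_nt.LinearPairsEveryModulus (family Good AllPrime)

/-- All the integers `n > |a| + |b|` with `(u + v + 2) n + a + b = M` are good. -/
def GoodSum (ε : ℝ) (A u v : ℕ) (a b : ℤ) (M : ℕ) : Prop :=
  ∀ n : ℕ, a.natAbs + b.natAbs < n → ((u : ℤ) + v + 2) * n + a + b = M → Good ε A u v a b n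

theorem few_sum (ε : ℝ) (hε : 0 < ε) (A : ℕ) (u v : ℕ) (hu : 2 ∣ u) (hv : 2 ∣ v) (a b : ℤ) (ha : Odd a) (hb : Odd b) :
    Few (2 / 3) (GoodSum ε A u v a b) := by
  refine Run7.h469.Tm.few_mono ?_ (LinearFormsAndRecurrences.few_good ε hε A u v hu hv a b ha hb)
  intro m h n h1 h2
  refine h n ?_ h1
  rw [← h2]
  push_cast
  ring

/-- **Trajectories.** Let `u, v ≥ 0` be even and `a, b` odd. The family `f₁ = (u + 2) x + u y + a`,
`f₂ = v x + (v + 2) y + b` is admissible.
(1) Let `q`, `c` be odd and coprime, `κ (log 2 + (log q) / 4) < 1`. For all large `N` and all `m ≤ N` with at most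
`N / (log N)^B` exceptions ALL the `n > |a| + |b|` with `(u + v + 2) n + a + b = u' T^k(m)`, `k ≤ κ log N`,
`1 ≤ u' ≤ (log N)^U`, are good.
(2) In particular for almost all `m` all the `n > |a| + |b|` with `(u + v + 2) n + a + b = u' T^k(m)`, `k ≤ 1.03 log m`,
`1 ≤ u' ≤ (log m)^U`, where `T(x) = x / 2` or `(3 x + 1) / 2`, are of the form `x + y` with `x, y > 0` and prime `|f₁(x, y)|`,
`|f₂(x, y)|`.
(3) For the Goldbach family `2 x - 1`, `2 y + 1` and for almost all `m` all the `n = u' T^k(m)`, `k ≤ 1.03 log m`,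
`1 ≤ u' ≤ (log m)^U`, `n > 2`, are of this form. -/
theorem result (u v : ℕ) (hu : 2 ∣ u) (hv : 2 ∣ v) (a b : ℤ) (ha : Odd a) (hb : Odd b) :
    LinearPairsEveryModulus.Admissible (family u v a b) ∧
    (∀ q c : ℕ, Odd q → Odd c → Nat.Coprime c q → ∀ κ ε : ℝ, 0 < ε → κ * (Real.log 2 + 1 / 4 * Real.log q) < 1 →
      ∀ A B U : ℕ, ∃ N₀ : ℕ, ∀ N : ℕ, N₀ ≤ N →
        ((exceptionalStarts q c (GoodSum ε A u v a b) κ U N).card : ℝ) ≤ N / Real.log N ^ B) ∧
    (∀ U : ℕ, AlmostAll (fun m => ∀ k u' n : ℕ, (k : ℝ) ≤ 103 / 100 * Real.log m → 1 ≤ u' →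
      (u' : ℝ) ≤ Real.log m ^ U → a.natAbs + b.natAbs < n → ((u : ℤ) + v + 2) * n + a + b = (u' * (T 3 1)^[k] m : ℕ) →
        ∃ x y : ℕ, 0 < x ∧ 0 < y ∧ x + y = n ∧ AllPrime (family u v a b) x y)) ∧
    (∀ U : ℕ, AlmostAll (fun m => ∀ k u' : ℕ, (k : ℝ) ≤ 103 / 100 * Real.log m → 1 ≤ u' →
      (u' : ℝ) ≤ Real.log m ^ U → 2 < u' * (T 3 1)^[k] m →
        ∃ x y : ℕ, 0 < x ∧ 0 < y ∧ x + y = u' * (T 3 1)^[k] m ∧ AllPrime (family 0 0 (-1) 1) x y)) := by
  refine ⟨LinearPairsEveryModulus.admissible u v hu hv a b ha hb, fun q c hq hc hcq κ ε hε hκ A B U => ?_,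
    fun U => ?_, fun U => ?_⟩
  · exact starts_two_thirds q c hq hc hcq κ hκ _ (few_sum ε hε A u v hu hv a b ha hb) B U
  · refine AlmostAll.mono ?_ (collatz_two_thirds _ (few_sum 1 one_pos 0 u v hu hv a b ha hb) U)
    intro m h k u' n h1 h2 h3 h4 h5
    exact (h k u' h1 h2 h3 n h4 h5).1
  · obtain ⟨m₀, hm₀⟩ := Run7.h469.Tm.ev_log_ge 2
    refine AlmostAll.mono_ge m₀ ?_ (collatz_two_thirds _ (few_sum 1 one_pos 0 0 0 (by norm_num) (by norm_num) (-1) 1
      (by decide) (by decide)) (U + 1))
    intro m hm h k u' h1 h2 h3 h4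
    have h5 := hm₀ m hm
    refine (h k (2 * u') h1 (by omega) ?_ (u' * (T 3 1)^[k] m) (by simpa using h4) (by push_cast; ring)).1
    push_cast
    calc 2 * (u' : ℝ) ≤ Real.log m * Real.log m ^ U := by
          apply mul_le_mul h5 h3 (by positivity) (by linarith)
      _ = Real.log m ^ (U + 1) := by ring

end Pool.Agent.Results.MP_0da313_nt.CollatzTrajectories
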