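import Pool.Agent.Run7.h469.Af
import Pool.Agent.Results.MP_0da313_nt.LinearPairsEveryModulus

/-!
# Prime values along `x + y = n`: values `n` of linear forms with large coefficients, linear recurrences

We consider the families `f₁ = (u + 2) x + u y + a`, `f₂ = v x + (v + 2) y + b` (`u`, `v ≥ 0` even, `a`, `b` odd), which are
admissible in the sense of the problem (`u = v = 0`, `a = -1`, `b = 1` is the Goldbach family).

Let `d ≥ 1`. For EVERY linear form `c · w + e` in `d` variables whose integer coefficients `c_i` have at most `(log X)^U` as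
their greatest common divisor and are at most `X^(2 - η)`, and for all vectors `w` of `[1, X]^d` with at most
`X^d / (log X)^B` exceptions, ALL the values `n > |a| + |b|` of the form are as required in the problem, `n = x + y` with
positive `x`, `y` and prime `|f₁(x, y)|`, `|f₂(x, y)|`, and the number of these `x` in all windows of length at least
`n / (log n)^A` is the predicted one up to the factor `1 ± ε`. For `d = 2` the `X^2` values of such a form are spread over an
interval of length `X^(3 - η)`: they are two-dimensional generalised progressions of density `N^(-1/3)`. The same holds for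
all members of a family of `(log X)^U` forms at once.

In particular, let `s`, `t` be coprime positive integers (`s = t = 1`: generalised Fibonacci sequences). For all pairs
`(x_0, x_1)` in `[1, X]^2` with at most `X^2 / (log X)^B` exceptions ALL the members `x_k ≤ X^(3 - η)` of the sequence
`x_(k + 2) = s x_(k + 1) + t x_k`, all their multiples by numbers up to `(log X)^U` and all the integers within `(log X)^U`
of these have this property.

Definitions used: from `Run7/h469/Tm`: `Admissible` (the conditions on a form), `exceptionalVectors`, `seq`,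
`exceptionalPairs`; from the starting file `LinearPairsEveryModulus`: `family u v a b` (the polynomials `f₁`, `f₂`), `Admissible`
(of a family, as in the problem), `Good ε A u v a b n` (`n` is as required, with the asymptotic formula in windows).

Proof. There is a vector `h` with coordinates at most `X^σ` such that `q = |c · h|` is large and such that
`M = (u + v + 2) (c · w + e) + a + b` has only a small common divisor with `q` for almost all `w`. (For the small divisors one
takes the mean value over `h`; for the larger ones some coordinate of `w` is determined modulo a large number.) The box is a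
union of progressions `w_0 + t h`, on which the form runs through residue classes modulo `q`, and the theorem on Goldbach
pairs in all residue classes of all moduli up to `x^(2/3 - ρ)` of the starting files (`R460/GH`) can be applied.
-/

set_option autoImplicit false

namespace Pool.Agent.Results.MP_0da313_nt.LinearFormsAndRecurrences

open Finset
open Run7.h469.CT (Few)
open Run7.h469.Tm (Aff vectors_affine pairs_affine exceptionalVectors exceptionalPairs)
open Pool.Agent.Results.MP_0da313_nt.LinearPairsEveryModulus (family Good M)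

theorem few_good (ε : ℝ) (hε : 0 < ε) (A : ℕ) (u v : ℕ) (hu : 2 ∣ u) (hv : 2 ∣ v) (a b : ℤ) (ha : Odd a) (hb : Odd b) :
    Few (2 / 3) (Aff (u + v + 2) (a + b) (fun n => a.natAbs + b.natAbs < n → Good ε A u v a b n)) := by
  obtain ⟨δ, hδ, N₁, hN1, h1⟩ := LinearPairsEveryModulus.good_of ε hε A u v hu hv a b ha hb
  have h2 : Few (2 / 3) (fun m => Even m →
      Aff (u + v + 2) (a + b) (fun n => a.natAbs + b.natAbs < n → Good ε A u v a b n) m) := by
    apply Run7.h469.Tm.few_even
    intro ρ hρ B T
    refine Pool.Agent.R460.GH.class_asymp _ δ hδ (A + 1) ⟨(u + v + 2) * N₁ + a.natAbs + b.natAbs, ?_⟩ ρ hρ B T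
    intro m hm _ hw n hn _
    have hN : N₁ ≤ n := by
      by_contra hcon
      rw [not_le] at hcon
      have h3 : ((u + v + 2 : ℕ) : ℤ) * n ≤ ((u + v + 2 : ℕ) : ℤ) * N₁ := by
        apply mul_le_mul_of_nonneg_left _ (by positivity)
        exact_mod_cast hcon.le
      have h5 : ((u + v + 2 : ℕ) : ℤ) * n + (u + v + 2 : ℕ) ≤ ((u + v + 2 : ℕ) : ℤ) * N₁ := by
        have : (n : ℤ) + 1 ≤ N₁ := by exact_mod_cast hcon
        have h6 : ((u + v + 2 : ℕ) : ℤ) * (n + 1) ≤ ((u + v + 2 : ℕ) : ℤ) * N₁ :=
          mul_le_mul_of_nonneg_left this (by positivity)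
        linarith
      have h4 : (((u + v + 2) * N₁ + a.natAbs + b.natAbs : ℕ) : ℤ) ≤ m := by exact_mod_cast hm
      rw [← hn] at h4
      have ha' : a ≤ |a| := le_abs_self a
      have hb' : b ≤ |b| := le_abs_self b
      push_cast at h4 h5
      omega
    apply h1 n hN
    have e : M u v a b n = m := by
      unfold M
      have : ((u : ℤ) + v + 2) * n + a + b = m := by
        rw [← hn]
        push_cast
        ring
      rw [this]
      exact Int.toNat_natCast m
    rw [e]
    exact hw
  refine Run7.h469.Tm.few_mono ?_ h2
  intro m h3 n hn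
  apply h3 _ n hn
  have h4 : Even ((m : ℕ) : ℤ) := by
    rw [← hn]
    obtain ⟨u', rfl⟩ := hu
    obtain ⟨v', rfl⟩ := hv
    apply Even.add
    · apply Even.mul_right
      exact ⟨u' + v' + 1, by push_cast; ring⟩
    · exact ha.add_odd hb
  exact_mod_cast h4

theorem pos_of (u v : ℕ) (a b : ℤ) (ε : ℝ) (A n : ℕ) (h : ((u + v + 2 : ℕ) : ℤ) * n + (a + b) ≤ 0) :
    a.natAbs + b.natAbs < n → Good ε A u v a b n := by
  intro h1
  exfalso
  have h2 : (n : ℤ) ≤ ((u + v + 2 : ℕ) : ℤ) * n := by
    have : (1 : ℤ) ≤ ((u + v + 2 : ℕ) : ℤ) := by push_cast; omega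
    have hn : (0 : ℤ) ≤ n := by positivity
    nlinarith
  omega

/-- **Values of linear forms and members of linear recurrence sequences.** Let `u, v ≥ 0` be even and `a, b` odd. The family
`f₁ = (u + 2) x + u y + a`, `f₂ = v x + (v + 2) y + b` is admissible. Let `ε, η > 0`, `A`, `B`, `U` be arbitrary and `X` large.
(1) For every family of at most `(log X)^U` linear forms in `d ≥ 1` variables with coefficients at most `X^(2 - η)` and with
greatest common divisors at most `(log X)^U`, and for all vectors in `[1, X]^d` with at most `X^d / (log X)^B` exceptions, all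
the values `n > |a| + |b|` of the forms are good.
(2) Let `s`, `t` be coprime and positive. For all `(x_0, x_1)` in `[1, X]^2` with at most `X^2 / (log X)^B` exceptions all the
positive integers `n = u' x_k + v'`, `n > |a| + |b|`, `x_k ≤ X^(3 - η)`, `1 ≤ u' ≤ (log X)^U`, `|v'| ≤ (log X)^U`, are good, where
`x_(k+2) = s x_(k+1) + t x_k`. -/
theorem result (u v : ℕ) (hu : 2 ∣ u) (hv : 2 ∣ v) (a b : ℤ) (ha : Odd a) (hb : Odd b) :
    LinearPairsEveryModulus.Admissible (family u v a b) ∧
    ∀ ε : ℝ, 0 < ε → ∀ η : ℝ, 0 < η → ∀ A B U : ℕ,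
    (∀ d : ℕ, 1 ≤ d → ∃ X₀ : ℕ, ∀ X : ℕ, X₀ ≤ X → ∀ forms : Finset ((Fin d → ℤ) × ℤ),
      (forms.card : ℝ) ≤ Real.log X ^ U → (∀ l ∈ forms, Run7.h469.Tm.Admissible (2 - η) U X l.1 l.2) →
        ((exceptionalVectors (fun n => a.natAbs + b.natAbs < n → Good ε A u v a b n) X forms).card : ℝ) ≤
          (X : ℝ) ^ d / Real.log X ^ B) ∧
    (∀ s t : ℕ, 1 ≤ s → 1 ≤ t → Nat.Coprime s t → ∃ X₀ : ℕ, ∀ X : ℕ, X₀ ≤ X →
      ((exceptionalPairs s t (fun n => a.natAbs + b.natAbs < n → Good ε A u v a b n) U X
        ((X : ℝ) ^ (3 - η))).card : ℝ) ≤ (X : ℝ) ^ 2 / Real.log X ^ B) := by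
  refine ⟨LinearPairsEveryModulus.admissible u v hu hv a b ha hb, fun ε hε η hη A B U => ⟨fun d hd => ?_,
    fun s t hs ht hst => ?_⟩⟩
  · exact vectors_affine hd (2 / 3) (2 - η) η (by norm_num) (by norm_num) hη (by norm_num) (u + v + 2) (by omega) (a + b)
      _ (fun n h => pos_of u v a b ε A n h) (few_good ε hε A u v hu hv a b ha hb) B U
  · exact pairs_affine s t hs ht hst (2 / 3) (3 - η) η (by norm_num) (by norm_num) hη (by norm_num) (u + v + 2)
      (by omega) (a + b) _ (fun n h => pos_of u v a b ε A n h) (few_good ε hε A u v hu hv a b ha hb) B U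

end Pool.Agent.Results.MP_0da313_nt.LinearFormsAndRecurrences
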