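import Mathlib
import Pool.Agent.Run7.h870.PQ.Mn

/-!
# Two nonlinear polynomials prime on a positive proportion of the lines `x + y = n`

The families `f₁ = x + y + F₁(x)`, `f₂ = x + y + F₂(x)` with nonconstant `F₁`, `F₂ ∈ ℤ[x]` whose difference is
not constant and takes an even value; for example `x + y + x ^ 2` and `x + y + x ^ 2 + x`.
For a positive proportion of the `n ≤ X` the number of the representations `n = x + y` with positive `x`, `y`,
`x ≤ K` and `f₁(x, y)`, `f₂(x, y)` both prime is at least `c K / (log X) ^ 2`, the expected order of magnitude,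
for all `K` with `K ^ deg (F₂ - F₁) ≥ X ^ (1/3) (log X) ^ C` and `K ^ D ≤ c X`, `D` the larger degree.

Proof. The first moment over `n` is the Hardy-Littlewood asymptotic for the prime pairs `q`, `q + G(x)` for almost
all values of `G = F₂ - F₁` at short arguments `x`; the second moment is bounded by the upper bound sieve for
four primes, with averages of powers of `m / φ(m)` over the values of polynomials, uniform in the polynomials;
then Cauchy-Schwarz.
-/

set_option autoImplicit false

namespace Pool.Agent.Results.MP_0da313_nt.PositiveProportionOfLines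

open Finset Polynomial

/-- The polynomial `f(x, y) = x + y + F(x)`. -/
def f (F : ℤ[X]) (x y : ℤ) : ℤ := x + y + F.eval x

open Classical in
/-- The number of the representations `n = x + y` with positive `x`, `y` and `x ≤ K`, for which
`f₁(x, y)` and `f₂(x, y)` are both (positive) primes; they are counted by `x`. -/
noncomputable def reps (F₁ F₂ : ℤ[X]) (K n : ℕ) : ℕ :=
  ((Icc 1 K).filter fun x : ℕ => ∃ y : ℕ, 1 ≤ y ∧ x + y = n ∧ (f F₁ x y).toNat.Prime ∧ (f F₂ x y).toNat.Prime).card

open Classical in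
/-- **Two nonlinear polynomials prime on a positive proportion of the lines `x + y = n`.** -/
theorem result (F₁ F₂ : ℤ[X]) (h₁ : 1 ≤ F₁.natDegree) (h₂ : 1 ≤ F₂.natDegree) (hd : 1 ≤ (F₂ - F₁).natDegree)
    (even : ∃ x : ℤ, 2 ∣ F₂.eval x - F₁.eval x) :
    ∃ c : ℝ, 0 < c ∧ ∃ C X₀ : ℕ, ∀ X K : ℕ, X₀ ≤ X →
      (X : ℝ) ^ (1 / 3 : ℝ) * Real.log X ^ C ≤ (K : ℝ) ^ (F₂ - F₁).natDegree →
      (K : ℝ) ^ (max F₁.natDegree F₂.natDegree) ≤ c * X →
      c * X ≤ (((Icc 1 X).filter fun n : ℕ => c * K / Real.log X ^ 2 ≤ reps F₁ F₂ K n).card : ℝ) := by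
  obtain ⟨c, hc, C, X₀, h⟩ := Run7.h870.PQ.pairs F₁ F₂ h₁ h₂ hd even
  refine ⟨c / 2, by positivity, C, X₀ + 3, fun X K hX hK hKD => ?_⟩
  have hX3 : (3 : ℝ) ≤ X := by exact_mod_cast (by omega : 3 ≤ X)
  have hX0 : (0 : ℝ) < X := by linarith
  have hlog : 1 ≤ Real.log X := by
    rw [Real.le_log_iff_exp_le (by linarith)]
    linarith [Real.exp_one_lt_d9]
  have h1 := h X K (by omega) hK (hKD.trans (by nlinarith))
  have hK1 : (K : ℝ) ≤ c / 2 * X := by
    refine le_trans ?_ hKD
    rcases Nat.eq_zero_or_pos K with h0 | h0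
    · rw [h0, Nat.cast_zero]
      exact pow_nonneg le_rfl _
    · have hKr : (1 : ℝ) ≤ K := by exact_mod_cast h0
      calc (K : ℝ) = (K : ℝ) ^ 1 := (pow_one _).symm
        _ ≤ _ := pow_le_pow_right₀ hKr (h₁.trans (le_max_left _ _))
  have h2 : ((Icc 1 X).filter fun a : ℕ => c * K / Real.log X ^ 2 ≤
        (((Icc 1 K).filter fun n : ℕ => ((a : ℤ) + F₁.eval (n : ℤ)).toNat.Prime ∧
          ((a : ℤ) + F₂.eval (n : ℤ)).toNat.Prime).card : ℝ)).card ≤
      ((Icc 1 X).filter fun n : ℕ => c / 2 * K / Real.log X ^ 2 ≤ reps F₁ F₂ K n).card + K := by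
    have hsub : ((Icc 1 X).filter fun a : ℕ => c * K / Real.log X ^ 2 ≤
        (((Icc 1 K).filter fun n : ℕ => ((a : ℤ) + F₁.eval (n : ℤ)).toNat.Prime ∧
          ((a : ℤ) + F₂.eval (n : ℤ)).toNat.Prime).card : ℝ)) ⊆
        ((Icc 1 X).filter fun n : ℕ => c / 2 * K / Real.log X ^ 2 ≤ reps F₁ F₂ K n) ∪ Icc 1 K := by
      intro a ha
      rw [mem_filter] at ha
      rw [mem_union, mem_filter]
      by_cases haK : a ≤ K
      · right
        rw [mem_Icc] at ha ⊢
        exact ⟨ha.1.1, haK⟩
      · left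
        refine ⟨ha.1, ?_⟩
        have h3 : c / 2 * K / Real.log X ^ 2 ≤ c * K / Real.log X ^ 2 := by
          have : 0 ≤ c * K / Real.log X ^ 2 := by positivity
          have e : c / 2 * K / Real.log X ^ 2 = (c * K / Real.log X ^ 2) / 2 := by ring
          rw [e]
          linarith
        refine h3.trans (ha.2.trans ?_)
        rw [Nat.cast_le]
        unfold reps
        apply card_le_card
        intro x hx
        rw [mem_filter, mem_Icc] at hx
        rw [mem_filter, mem_Icc]
        refine ⟨hx.1, a - x, by omega, by omega, ?_, ?_⟩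
        · unfold f
          have e : (x : ℤ) + ((a - x : ℕ) : ℤ) = a := by omega
          rw [e]
          exact hx.2.1
        · unfold f
          have e : (x : ℤ) + ((a - x : ℕ) : ℤ) = a := by omega
          rw [e]
          exact hx.2.2
    have h3 := (card_le_card hsub).trans (card_union_le _ _)
    rw [Nat.card_Icc] at h3
    omega
  have h3 : (((Icc 1 X).filter fun a : ℕ => c * K / Real.log X ^ 2 ≤
        (((Icc 1 K).filter fun n : ℕ => ((a : ℤ) + F₁.eval (n : ℤ)).toNat.Prime ∧
          ((a : ℤ) + F₂.eval (n : ℤ)).toNat.Prime).card : ℝ)).card : ℝ) ≤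
      (((Icc 1 X).filter fun n : ℕ => c / 2 * K / Real.log X ^ 2 ≤ reps F₁ F₂ K n).card : ℝ) + K := by exact_mod_cast h2
  linarith

end Pool.Agent.Results.MP_0da313_nt.PositiveProportionOfLines
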